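import Pool.Agent.H4.RMaj

set_option autoImplicit false

namespace Pool.Agent.Results.MP_c4e285_co.NoBohr

open Finset Filter Topology Pool.Agent.H4.RMaj
open scoped Classical Pointwise

/-- Folner sequences of nonempty finite sets. -/
def IsFolner {G : Type} [AddCommGroup G] (F : ℕ → Finset G) : Prop :=
  (∀ n, (F n).Nonempty) ∧ ∀ g : G,
    Tendsto (fun n => ((symmDiff ((F n).image (g + ·)) (F n)).card : ℝ) / (F n).card) atTop (𝓝 0)

/-- Upper Banach density. -/
noncomputable def ubd {G : Type} [AddCommGroup G] (A : Set G) : ℝ :=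
  sSup {d | ∃ F : ℕ → Finset G, IsFolner F ∧
    d = limsup (fun n => (((F n).filter (· ∈ A)).card : ℝ) / (F n).card) atTop}

/-- Bohr sets. -/
def Bohr {G : Type} [AddCommGroup G] {k : ℕ} (χ : Fin k → AddChar G Circle) (η : ℝ) : Set G :=
  {g | ∀ j, ‖((χ j g : Circle) : ℂ) - 1‖ < η}

/-- `S` contains a Bohr set. -/
def HasBohr {G : Type} [AddCommGroup G] (S : Set G) : Prop :=
  ∃ (k : ℕ) (χ : Fin k → AddChar G Circle) (η : ℝ), 0 < η ∧ Bohr χ η ⊆ S

lemma ubd_ge {G : Type} [AddCommGroup G] (A : Set G) (F : ℕ → Finset G) (hF : IsFolner F)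
    (h : ∀ n, (F n).card ≤ 4 * ((F n).filter (· ∈ A)).card) : 0 < ubd A := by
  have hle : ∀ (F : ℕ → Finset G) n, (((F n).filter (· ∈ A)).card : ℝ) / (F n).card ≤ 1 :=
    fun F n => div_le_one_of_le₀ (by exact_mod_cast card_filter_le _ _) (by positivity)
  refine lt_of_lt_of_le (show (0 : ℝ) < 1 / 4 by norm_num) (le_csSup_of_le ⟨1, ?_⟩ ⟨F, hF, rfl⟩ ?_)
  · rintro d ⟨F', -, rfl⟩
    exact limsup_le_of_le (isCoboundedUnder_le_of_le atTop (x := 0) fun n => by positivity)
      (Eventually.of_forall (hle F'))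
  · refine le_limsup_of_frequently_le (Frequently.of_forall fun n => ?_)
      (isBoundedUnder_of ⟨1, hle F⟩)
    have h1 : (0 : ℝ) < (F n).card := by exact_mod_cast (hF.1 n).card_pos
    have h2 : ((F n).card : ℝ) ≤ 4 * ((F n).filter (· ∈ A)).card := by exact_mod_cast h n
    rw [div_le_div_iff₀ (by norm_num) h1]
    linarith

/-- the group of all functions with one of the periods `c j` -/
def G : AddSubgroup (ℕ → Z2) where
  carrier := {g | ∃ j, Per j g}
  add_mem' := fun ⟨i, hi⟩ ⟨j, hj⟩ => ⟨max i j, (hi.mono (le_max_left _ _)).add (hj.mono (le_max_right _ _))⟩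
  zero_mem' := ⟨0, fun _ => rfl⟩
  neg_mem' := fun ⟨i, hi⟩ => ⟨i, (K i).neg_mem hi⟩

def inc (j : ℕ) (g : K j) : G := ⟨g.1, j, g.2⟩

lemma inc_inj (j : ℕ) : Function.Injective (inc j) := fun _ _ h =>
  Subtype.ext (congrArg (fun g : G => g.1) h)

instance : Countable G := by
  refine Function.Surjective.countable (f := fun p : Σ j, K j => inc p.1 p.2) ?_
  rintro ⟨g, j, hj⟩
  exact ⟨⟨j, g, hj⟩, rfl⟩

noncomputable def F (j : ℕ) : Finset G := univ.image (inc j)

lemma mem_F {j : ℕ} {g : G} : g ∈ F j ↔ Per j g.1 := by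
  simp only [F, mem_image, mem_univ, true_and]
  exact ⟨fun ⟨x, hx⟩ => hx ▸ x.2, fun h => ⟨⟨g.1, h⟩, rfl⟩⟩

lemma gadd (g : G) : g + g = 0 := by
  ext n; exact z2add _

lemma folner_of {H : Type} [AddCommGroup H] (F : ℕ → Finset H) (h0 : ∀ n, (F n).Nonempty)
    (h : ∀ g, ∃ i, ∀ j ≥ i, ∀ x, x ∈ F j ↔ g + x ∈ F j) : IsFolner F := by
  refine ⟨h0, fun g => ?_⟩
  obtain ⟨i, hi⟩ := h g
  refine tendsto_const_nhds.congr' (eventually_atTop.2 ⟨i, fun j hj => ?_⟩)
  have : (F j).image (g + ·) = F j := by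
    ext x
    simp only [mem_image]
    refine ⟨?_, fun h => ⟨-g + x, (hi j hj _).2 (by simpa using h), by simp⟩⟩
    rintro ⟨y, hy, rfl⟩
    exact (hi j hj y).1 hy
  simp only [this]
  simp

lemma folner : IsFolner F := by
  refine folner_of F (fun n => ⟨0, mem_F.2 fun _ => rfl⟩) fun g => ?_
  obtain ⟨i, hi⟩ := g.2
  refine ⟨i, fun j hj x => ⟨fun h => mem_F.2 ((hi.mono hj).add (mem_F.1 h)), fun h => ?_⟩⟩
  have : g + (g + x) ∈ F j := mem_F.2 ((hi.mono hj).add (mem_F.1 h))
  rwa [← add_assoc, gadd, zero_add] at this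

noncomputable def Φ (g : G) : Z2 := Phi g.2.choose g.1

lemma Φ_eq {g : G} {j : ℕ} (h : Per j g.1) : Φ g = Phi j g.1 := by
  unfold Φ
  rw [← Phi_mono g.2.choose_spec (le_max_left _ j), Phi_mono h (le_max_right _ j)]

def one : G := ⟨1, 0, per_one 0⟩

lemma Φ_one (g : G) : Φ (g + one) = Φ g + 1 := by
  obtain ⟨j, hj⟩ := g.2
  rw [Φ_eq hj, Φ_eq (j := j) (hj.add (per_one j))]
  exact Phi_one j g.1

def B : Set G := {g | ∀ i (s : G), X i s.1 → Φ (g + s) = 0}

lemma B_pos : 0 < ubd B := by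
  refine ubd_ge B F folner fun j => ?_
  have h1 := dens j
  have h2 : (F j).card = Fintype.card (K j) := by
    rw [F, card_image_of_injective _ (inc_inj j), card_univ]
  have h3 : (univ.filter (fun g : K j => Bj j g.1)).card ≤ ((F j).filter (· ∈ B)).card := by
    refine card_le_card_of_injOn (inc j) ?_ (inc_inj j).injOn
    intro g hg
    simp only [coe_filter, mem_univ, true_and, Set.mem_ofPred_eq] at hg ⊢
    exact ⟨mem_F.2 g.2, fun i s hs => Bj_all g.2 hg i s.1 hs _ (inc j g + s).2.choose_spec⟩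
  have h4 := Nat.mul_le_mul_left (2 ^ (j + 2)) h3
  refine Nat.le_of_mul_le_mul_left (c := 2 ^ j) ?_ (by positivity)
  rw [h2]
  simp only [pow_succ] at h1 h4
  nlinarith

/-- restriction to a set of residues -/
noncomputable def res (j : ℕ) (s : G) (hs : Per j s.1) (T : Finset ℕ) : G :=
  ⟨fun n => if n % c j ∈ T then s.1 n else 0, j, fun n => by simp only [Nat.mod_mod]; rw [← hs n]⟩

lemma dense {k : ℕ} (χ : Fin k → AddChar G Circle) (y : G) :
    ∃ i, ∃ s : G, X i s.1 ∧ ∀ j, χ j s = χ j y := by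
  obtain ⟨j0, hj0⟩ := y.2
  set i := max j0 k
  have hy : Per (i + 1) y.1 := hj0.mono ((le_max_left _ _).trans (Nat.le_succ _))
  let w : G → ℕ := fun s => ((range (c (i + 1))).filter (fun n => s.1 n = 1)).card
  obtain ⟨s, hs, hmin⟩ := exists_min_image ((F (i + 1)).filter (fun s => ∀ j, χ j s = χ j y)) w
    ⟨y, by simp [mem_F, hy]⟩
  simp only [mem_filter, mem_F] at hs hmin
  refine ⟨i, s, ⟨hs.1, ?_⟩, hs.2⟩
  by_contra hw
  set W := (range (c (i + 1))).filter (fun n => s.1 n = 1) with hW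
  have hk : k < W.card := by have := le_max_right j0 k; omega
  obtain ⟨T, hT, T', hT', hne, he⟩ := exists_ne_map_eq_of_card_lt_of_maps_to
    (s := W.powerset) (t := (univ : Finset (Fin k → Prop)))
    (f := fun T j => χ j (res _ s hs.1 T) = 1) (by
      simp only [card_univ, Fintype.card_pi, Fintype.card_prop, prod_const, Fintype.card_fin,
        card_powerset]
      exact Nat.pow_lt_pow_right (by norm_num) hk) (fun _ _ => mem_univ _)
  have hsq : ∀ j (g : G), χ j g * χ j g = 1 := fun j g => by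
    rw [← AddChar.map_add_eq_mul, gadd, AddChar.map_zero_eq_one]
  have he' : ∀ j, χ j (res _ s hs.1 T) * χ j (res _ s hs.1 T') = 1 := by
    intro j
    have h1 : χ j (res _ s hs.1 T) = 1 ↔ χ j (res _ s hs.1 T') = 1 := iff_of_eq (congrFun he j)
    have h2 := hsq j (res _ s hs.1 T)
    have h3 := hsq j (res _ s hs.1 T')
    simp only [← Circle.coe_inj, Circle.coe_mul, Circle.coe_one, mul_self_eq_one_iff] at h1 h2 h3 ⊢
    rcases h2 with h2 | h2 <;> rcases h3 with h3 | h3 <;> rw [h2, h3] at h1 ⊢ <;>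
      first | (norm_num; done) | norm_num at h1
  have hper : ∀ T, Per (i + 1) (res _ s hs.1 T).1 := fun T n => by
    simp only [res, Nat.mod_mod]; rw [← hs.1 n]
  have h4 := hmin (s + (res _ s hs.1 T + res _ s hs.1 T'))
    ⟨hs.1.add ((hper T).add (hper T')), fun j => by
      rw [AddChar.map_add_eq_mul, AddChar.map_add_eq_mul, he', mul_one, hs.2]⟩
  refine absurd h4 (not_le.2 (card_lt_card ⟨?_, fun hsub => hne ?_⟩))
  · intro n
    simp only [mem_filter, res, AddSubgroup.coe_add, Pi.add_apply]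
    rintro ⟨h1, h2⟩
    refine ⟨h1, ?_⟩
    rcases z2 (s.1 n) with h | h
    · simp [h] at h2
    · exact h
  · ext n
    by_cases hn : n ∈ W
    · have h1 := hsub hn
      simp only [hW, mem_filter, mem_range, res, AddSubgroup.coe_add, Pi.add_apply] at h1 hn
      rw [Nat.mod_eq_of_lt hn.1, hn.2] at h1
      by_cases a : n ∈ T <;> by_cases a' : n ∈ T' <;> simp [a, a'] at h1 ⊢
    · exact iff_of_false (fun h => hn (mem_powerset.1 hT h)) (fun h => hn (mem_powerset.1 hT' h))

/-- A countable abelian group, sets `B`, `C` of positive upper Banach density and a partition into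
two parts such that no `B + c + A i` contains a Bohr set. -/
theorem result : ∃ (H : Type) (_ : AddCommGroup H) (_ : Countable H) (B C : Set H)
    (A : Fin 2 → Set H), 0 < ubd B ∧ 0 < ubd C ∧ (∀ g, ∃! i, g ∈ A i) ∧
      ∀ x ∈ C, ∀ i, ¬ HasBohr (B + {x} + A i) := by
  refine ⟨G, inferInstance, inferInstance, B, Set.univ, fun i => {g | Φ g = i}, B_pos,
    ubd_ge _ F folner (fun n => by simp; omega), fun g => ⟨Φ g, rfl, fun _ h => h.symm⟩, ?_⟩
  rintro x - i ⟨k, χ, η, hη, h⟩
  have key : ∀ y : G, ∃ s : G, (∀ b ∈ B, Φ (b + s) = 0) ∧ y + s ∈ Bohr χ η := by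
    intro y
    obtain ⟨j, s, hs, he⟩ := dense χ y
    refine ⟨s, fun b hb => hb j s hs, fun l => ?_⟩
    rw [AddChar.map_add_eq_mul, he, ← AddChar.map_add_eq_mul, gadd]
    simpa using hη
  have canc : ∀ b a z : G, b + x + a = x + z → a = b + z := by
    intro b a z e
    have : b + (b + x + a) = b + (x + z) := by rw [e]
    rw [← add_assoc, ← add_assoc, gadd, zero_add, add_left_comm] at this
    exact add_left_cancel this
  rcases z2 i with rfl | rfl
  · obtain ⟨s, hs, hB⟩ := key (x + one)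
    obtain ⟨_, ⟨b, hb, _, rfl, rfl⟩, a, ha, e⟩ := h hB
    have h1 : a = b + s + one := by
      rw [canc b a (one + s) (by simpa [add_assoc] using e)]; abel
    have h2 : Φ a = 0 := ha
    rw [h1, Φ_one, hs b hb] at h2
    exact absurd h2 (by decide)
  · obtain ⟨s, hs, hB⟩ := key x
    obtain ⟨_, ⟨b, hb, _, rfl, rfl⟩, a, ha, e⟩ := h hB
    have h2 : Φ a = 1 := ha
    rw [canc b a s e, hs b hb] at h2
    exact absurd h2 (by decide)

end Pool.Agent.Results.MP_c4e285_co.NoBohr
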